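import Pool.Agent.Helper17.FQ.CHAIN1
import Pool.Agent.Helper31.FQ_CSTEP
import Pool.Agent.Helper62.FQ_MASSB
import Pool.Agent.Helper70.FQ_HOM
import Pool.Agent.Helper70.FQ_CLOSE
import Pool.Agent.Helper31.FQ_MISC

/-!
FQ row CHAIN (MP_08bd45_co).
-/

namespace Pool.Agent.Helper34.FQ

open Finset Pool.Agent.Helper34.PN

theorem chain (m : ℕ) (hm : 1 ≤ m) : ∃ (r : ℕ) (τ : ℝ), 1 ≤ r ∧ 0 < τ ∧
    ∀ (E : Type) [Fintype E] (μ₁ μ₂ : Finset ℕ → E → ℝ) (f₁ f₂ : ℕ → E → ℝ),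
      Sys m r τ μ₁ f₁ → Sys m r τ μ₂ f₂ → μ₁ ∅ = μ₂ ∅ → 1 - τ ≤ ∑ x, μ₁ ∅ x →
      (∀ q, q < r → ∑ x, μ₁ ∅ x * |f₁ q x + f₂ q x - 1| ≤ τ) → False :=
  Chain17.chain_of m hm hom (fun _ _ => close_blocks) (fun _ _ => sys_mass)
    (fun _ _ => chain_step) (fun _ _ => chain_step0) (fun _ _ => final_ineq)

end Pool.Agent.Helper34.FQ
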