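import Pool.Agent.Helper34.FQ.Defs

/-!
FQ row CHAIN, first part: blocks and the induction along the blocks, with the statements of the
rows CLOSE, CSTEP, MASSB as hypotheses (they are discharged in the file CHAIN).
-/

namespace Pool.Agent.Helper34.FQ

open Finset Pool.Agent.Helper34.PN

namespace Chain17

/-- consecutive blocks of equal size -/
theorem blocks (Q : Finset ℕ) (n b : ℕ) (hQ : Q.card = n * b) :
    ∃ C : ℕ → Finset ℕ, (∀ j, j < n → C j ⊆ Q ∧ (C j).card = b) ∧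
      ∀ i j, i < j → j < n → ∀ x ∈ C i, ∀ y ∈ C j, x < y := by
  classical
  set e : ℕ → ℕ := fun i => if h : i < n * b then Q.orderEmbOfFin hQ ⟨i, h⟩ else 0 with he
  have hmem : ∀ i, i < n * b → e i ∈ Q := by
    intro i hi
    have : e i = Q.orderEmbOfFin hQ ⟨i, hi⟩ := by simp [he, hi]
    rw [this]
    exact Q.orderEmbOfFin_mem hQ ⟨i, hi⟩
  have hlt : ∀ i j, i < j → j < n * b → e i < e j := by
    intro i j hij hj
    have hi : i < n * b := lt_trans hij hj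
    have h1 : e i = Q.orderEmbOfFin hQ ⟨i, hi⟩ := by simp [he, hi]
    have h2 : e j = Q.orderEmbOfFin hQ ⟨j, hj⟩ := by simp [he, hj]
    rw [h1, h2]
    exact (Q.orderEmbOfFin hQ).strictMono hij
  refine ⟨fun j => (Finset.Ico (j * b) ((j + 1) * b)).image e, ?_, ?_⟩
  · intro j hj
    have hle : (j + 1) * b ≤ n * b := Nat.mul_le_mul_right b hj
    constructor
    · intro x hx
      rw [mem_image] at hx
      obtain ⟨i, hi, rfl⟩ := hx
      rw [Finset.mem_Ico] at hi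
      exact hmem i (lt_of_lt_of_le hi.2 hle)
    · rw [Finset.card_image_of_injOn]
      · rw [Nat.card_Ico, Nat.add_mul]
        simp
      · intro i hi i' hi' hii
        rw [Finset.mem_coe, Finset.mem_Ico] at hi hi'
        rcases lt_trichotomy i i' with h | h | h
        · exact absurd hii (ne_of_lt (hlt i i' h (lt_of_lt_of_le hi'.2 hle)))
        · exact h
        · exact absurd hii.symm (ne_of_lt (hlt i' i h (lt_of_lt_of_le hi.2 hle)))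
  · intro i j hij hj x hx y hy
    rw [mem_image] at hx hy
    obtain ⟨u, hu, rfl⟩ := hx
    obtain ⟨v, hv, rfl⟩ := hy
    rw [Finset.mem_Ico] at hu hv
    have hle : (j + 1) * b ≤ n * b := Nat.mul_le_mul_right b hj
    have hle2 : (i + 1) * b ≤ j * b := Nat.mul_le_mul_right b hij
    exact hlt u v (lt_of_lt_of_le hu.2 (le_trans hle2 hv.1)) (lt_of_lt_of_le hv.2 hle)

/-- the statement of row CLOSE -/
def StClose (E : Type) [Fintype E] : Prop :=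
  ∀ (μ : E → ℝ) (f : ℕ → E → ℝ),
    (∀ x, 0 ≤ μ x) → (∀ q x, 0 ≤ f q x) → (∀ q x, f q x ≤ 2) → ∀ (A κ : ℝ),
    (∑ x, μ x ≤ A) → ∀ (C C' : Finset ℕ), Disjoint C C' → ∀ (b : ℕ), 1 ≤ b →
    C.card = b → C'.card = b →
    (∀ q q' u u', q ∈ C ∪ C' → q' ∈ C ∪ C' → u ∈ C ∪ C' → u' ∈ C ∪ C' → q < q' →
      u < u' → |∑ x, μ x * (f q x * f q' x) - ∑ x, μ x * (f u x * f u' x)| ≤ κ) →
    ∑ x, μ x * |fb f C x - fb f C' x| ≤ Real.sqrt (A * (4 * κ + 8 * A / b))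

/-- the statement of row CSTEP, first part -/
def StStep (E : Type) [Fintype E] : Prop :=
  ∀ {m r : ℕ} {τ : ℝ} {μ : Finset ℕ → E → ℝ}
    {f : ℕ → E → ℝ}, Sys m r τ μ f → ∀ (P O B O' : Finset ℕ) (k : ℕ), 1 ≤ k →
    k < m → O.Nonempty → B.Nonempty → O'.Nonempty →
    (∀ i ∈ O, ∀ j ∈ B, i < j) → (∀ i ∈ B, ∀ j ∈ O', i < j) →
    (∀ p ∈ P, ∀ j ∈ B, p < j) → (O' ⊆ range r) → ∀ (δ ρ : ℝ),
    (∑ x, μ P x * |fb f B x - fb f O x| ≤ δ) →
    (∑ x, μ P x * |fb f O' x - fb f O x| ≤ δ) →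
    (∀ p ∈ B, ∑ x, μ (insert p P) x * fb f O' x ^ k ≤ ρ) →
    ∑ x, μ P x * fb f O x ^ (k + 1) ≤ ρ + 2 * m * τ + m * 2 ^ m * δ

/-- the statement of row CSTEP, second part -/
def StStep0 (E : Type) [Fintype E] : Prop :=
  ∀ {m r : ℕ} {τ : ℝ} {μ : Finset ℕ → E → ℝ}
    {f : ℕ → E → ℝ}, Sys m r τ μ f → ∀ (P O B : Finset ℕ), 1 ≤ m → 0 ≤ τ →
    P ⊆ range r → P.card + 1 = m → B.Nonempty → B ⊆ range r →
    (∀ p ∈ P, ∀ j ∈ B, p < j) → ∀ (δ : ℝ),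
    (∑ x, μ P x * |fb f B x - fb f O x| ≤ δ) →
    ∑ x, μ P x * fb f O x ≤ 2 * m * τ + m * 2 ^ m * δ

/-- the statement of row MASSB -/
def StMass (E : Type) [Fintype E] : Prop :=
  ∀ {m r : ℕ} {τ : ℝ} {μ : Finset ℕ → E → ℝ}
    {f : ℕ → E → ℝ}, Sys m r τ μ f → 0 ≤ τ → τ ≤ 1 / 2 → ∀ (P : Finset ℕ),
    P ⊆ range r → ∑ x, μ P x ≤ 2 ^ (P.card + 1)

/-- homogeneity of the second moments on the set `Q` -/
def Homog {E : Type} [Fintype E] (m : ℕ) (κ : ℝ) (μ : Finset ℕ → E → ℝ) (f : ℕ → E → ℝ)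
    (Q : Finset ℕ) : Prop :=
  ∀ (P P' : Finset ℕ) (q q' u u' : ℕ), P ⊆ Q → P' ⊆ Q → P.card < m → P'.card = P.card →
    q ∈ Q → q' ∈ Q → u ∈ Q → u' ∈ Q → (∀ p ∈ P, p < q) → q < q' → (∀ p ∈ P', p < u) →
    u < u' → |∑ x, μ P x * (f q x * f q' x) - ∑ x, μ P' x * (f u x * f u' x)| ≤ κ

theorem close_two {E : Type} [Fintype E] (hcl : StClose E) (hma : StMass E)
    {m r : ℕ} {τ : ℝ} {μ : Finset ℕ → E → ℝ} {f : ℕ → E → ℝ} (h : Sys m r τ μ f)
    (h0 : 0 ≤ τ) (hτ : τ ≤ 1 / 2) {Q : Finset ℕ} (hQr : Q ⊆ range r) {κ δ : ℝ}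
    {b : ℕ} (hb : 1 ≤ b) (hhom : Homog m κ μ f Q)
    (hδ : Real.sqrt ((2 : ℝ) ^ m * (4 * κ + 8 * (2 : ℝ) ^ m / b)) ≤ δ)
    {P C C' : Finset ℕ} (hP : P ⊆ Q) (hPm : P.card < m) (hC : C ⊆ Q) (hC' : C' ⊆ Q)
    (hCb : C.card = b) (hCb' : C'.card = b) (hPC : ∀ p ∈ P, ∀ q ∈ C, p < q)
    (hCC : ∀ p ∈ C, ∀ q ∈ C', p < q) (hPC' : ∀ p ∈ P, ∀ q ∈ C', p < q) :
    ∑ x, μ P x * |fb f C' x - fb f C x| ≤ δ := by
  classical
  have hdis : Disjoint C' C := by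
    rw [Finset.disjoint_left]
    intro a ha ha'
    exact absurd (hCC a ha' a ha) (lt_irrefl _)
  have hmass : ∑ x, μ P x ≤ (2 : ℝ) ^ m := by
    refine le_trans (hma h h0 hτ P (hP.trans hQr)) ?_
    exact pow_le_pow_right₀ (by norm_num) hPm
  refine le_trans (hcl (μ P) f (h.mu0 P) h.f0 h.f2 ((2 : ℝ) ^ m) κ hmass C' C hdis b hb hCb' hCb
    ?_) hδ
  have hmem : ∀ q, q ∈ C' ∪ C → q ∈ Q ∧ ∀ p ∈ P, p < q := by
    intro q hq
    rcases Finset.mem_union.mp hq with hq | hq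
    · exact ⟨hC' hq, fun p hp => hPC' p hp q hq⟩
    · exact ⟨hC hq, fun p hp => hPC p hp q hq⟩
  intro q q' u u' hq hq' hu hu' hqq huu
  exact hhom P P q q' u u' hP hP hPm rfl (hmem q hq).1 (hmem q' hq').1 (hmem u hu).1
    (hmem u' hu').1 (hmem q hq).2 hqq (hmem u hu).2 huu

theorem claim {E : Type} [Fintype E] (hcl : StClose E) (hma : StMass E) (hst : StStep E)
    (hst0 : StStep0 E)
    {m r : ℕ} {τ : ℝ} {μ : Finset ℕ → E → ℝ} {f : ℕ → E → ℝ} (h : Sys m r τ μ f)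
    (hm : 1 ≤ m) (h0 : 0 ≤ τ) (hτ : τ ≤ 1 / 2) {Q : Finset ℕ} (hQr : Q ⊆ range r) {κ δ : ℝ}
    {b : ℕ} (hb : 1 ≤ b) (hhom : Homog m κ μ f Q)
    (hδ : Real.sqrt ((2 : ℝ) ^ m * (4 * κ + 8 * (2 : ℝ) ^ m / b)) ≤ δ)
    {C : ℕ → Finset ℕ} (hC : ∀ j, j < 2 * m → C j ⊆ Q ∧ (C j).card = b)
    (hCl : ∀ i j, i < j → j < 2 * m → ∀ x ∈ C i, ∀ y ∈ C j, x < y) :
    ∀ k t : ℕ, k + t + 1 = m → ∀ P : Finset ℕ, P ⊆ Q → P.card = t →
      (∀ p ∈ P, ∀ q ∈ C (2 * t), p < q) →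
      ∑ x, μ P x * fb f (C (2 * t)) x ^ (k + 1) ≤ (k + 1) * (2 * m * τ + m * 2 ^ m * δ) := by
  classical
  have hne : ∀ j, j < 2 * m → (C j).Nonempty := by
    intro j hj
    rw [← Finset.card_pos, (hC j hj).2]
    exact hb
  have htrans : ∀ (P : Finset ℕ) (i j : ℕ), i < j → j < 2 * m → (∀ p ∈ P, ∀ q ∈ C i, p < q) →
      ∀ p ∈ P, ∀ q ∈ C j, p < q := by
    intro P i j hij hj hPi p hp q hq
    obtain ⟨z, hz⟩ := hne i (lt_trans hij hj)
    exact lt_trans (hPi p hp z hz) (hCl i j hij hj z hz q hq)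
  intro k
  induction k with
  | zero =>
    intro t ht P hP hPt hPC
    have hj0 : 2 * t < 2 * m := by omega
    have hj1 : 2 * t + 1 < 2 * m := by omega
    have hPC1 := htrans P (2 * t) (2 * t + 1) (by omega) hj1 hPC
    have hcl1 := close_two hcl hma h h0 hτ hQr hb hhom hδ hP (by omega) (hC _ hj0).1 (hC _ hj1).1
      (hC _ hj0).2 (hC _ hj1).2 hPC (hCl _ _ (by omega) hj1) hPC1
    have := hst0 h P (C (2 * t)) (C (2 * t + 1)) hm h0 (hP.trans hQr) (by omega) (hne _ hj1)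
      ((hC _ hj1).1.trans hQr) hPC1 δ hcl1
    simpa using this
  | succ k ih =>
    intro t ht P hP hPt hPC
    have hj0 : 2 * t < 2 * m := by omega
    have hj1 : 2 * t + 1 < 2 * m := by omega
    have hj2 : 2 * (t + 1) < 2 * m := by omega
    have hPC1 := htrans P (2 * t) (2 * t + 1) (by omega) hj1 hPC
    have hPC2 := htrans P (2 * t) (2 * (t + 1)) (by omega) hj2 hPC
    have hcl1 := close_two hcl hma h h0 hτ hQr hb hhom hδ hP (by omega) (hC _ hj0).1 (hC _ hj1).1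
      (hC _ hj0).2 (hC _ hj1).2 hPC (hCl _ _ (by omega) hj1) hPC1
    have hcl2 := close_two hcl hma h h0 hτ hQr hb hhom hδ hP (by omega) (hC _ hj0).1 (hC _ hj2).1
      (hC _ hj0).2 (hC _ hj2).2 hPC (hCl _ _ (by omega) hj2) hPC2
    have h3 : ∀ p ∈ C (2 * t + 1), ∑ x, μ (insert p P) x * fb f (C (2 * (t + 1))) x ^ (k + 1)
        ≤ (k + 1) * (2 * m * τ + m * 2 ^ m * δ) := by
      intro p hp
      have hpP : p ∉ P := fun hpp => absurd (hPC1 p hpp p hp) (lt_irrefl _)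
      refine ih (t + 1) (by omega) (insert p P) ?_ ?_ ?_
      · intro z hz
        rcases Finset.mem_insert.mp hz with rfl | hz
        · exact (hC _ hj1).1 hp
        · exact hP hz
      · rw [Finset.card_insert_of_notMem hpP, hPt]
      · intro z hz q hq
        rcases Finset.mem_insert.mp hz with rfl | hz
        · exact hCl _ _ (by omega) hj2 z hp q hq
        · exact hPC2 z hz q hq
    have := hst h P (C (2 * t)) (C (2 * t + 1)) (C (2 * (t + 1))) (k + 1) (by omega) (by omega)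
      (hne _ hj0) (hne _ hj1) (hne _ hj2) (hCl _ _ (by omega) hj1) (hCl _ _ (by omega) hj2)
      hPC1 ((hC _ hj2).1.trans hQr) δ _ hcl1 hcl2 h3
    refine le_trans this (le_of_eq ?_)
    push_cast
    ring

end Chain17

end Pool.Agent.Helper34.FQ
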