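import Pool.Agent.Helper17.FQ.CHAIN0

/-!
FQ row CHAIN, second part: the contradiction, with the statements of the rows HOM, CLOSE, CSTEP,
MASSB and FIN as hypotheses.
-/

namespace Pool.Agent.Helper34.FQ

open Finset Pool.Agent.Helper34.PN

namespace Chain17

/-- the statement of row HOM -/
def StHom : Prop :=
  ∀ (m N : ℕ) (κ B : ℝ), 0 < κ →
    ∃ r : ℕ, 1 ≤ r ∧ ∀ g₁ g₂ : Finset ℕ → ℕ → ℕ → ℝ,
      (∀ P q q', P ⊆ range r → P.card < m → q < r → q' < r →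
        (0 ≤ g₁ P q q' ∧ g₁ P q q' ≤ B) ∧ (0 ≤ g₂ P q q' ∧ g₂ P q q' ≤ B)) →
      ∃ Q : Finset ℕ, Q ⊆ range r ∧ Q.card = N ∧
        ∀ (P P' : Finset ℕ) (q q' u u' : ℕ), P ⊆ Q → P' ⊆ Q → P.card < m →
          P'.card = P.card → q ∈ Q → q' ∈ Q → u ∈ Q → u' ∈ Q →
          (∀ p ∈ P, p < q) → q < q' → (∀ p ∈ P', p < u) → u < u' →
          |g₁ P q q' - g₁ P' u u'| ≤ κ ∧ |g₂ P q q' - g₂ P' u u'| ≤ κ

/-- the statement of row FIN -/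
def StFin (E : Type) [Fintype E] : Prop :=
  ∀ (m : ℕ), 1 ≤ m → ∀ (μ : E → ℝ),
    (∀ x, 0 ≤ μ x) → ∀ (u v : E → ℝ), (∀ x, 0 ≤ u x) → (∀ x, 0 ≤ v x) → ∀ (τ : ℝ),
    (1 - τ ≤ ∑ x, μ x) → (∑ x, μ x * |u x + v x - 1| ≤ τ) →
    2 * (1 / 2 : ℝ) ^ m * (1 - (m + 1) * τ) ≤ ∑ x, μ x * (u x ^ m + v x ^ m)

theorem second_bounds {E : Type} [Fintype E] (hma : StMass E)
    {m r : ℕ} {τ : ℝ} {μ : Finset ℕ → E → ℝ} {f : ℕ → E → ℝ} (h : Sys m r τ μ f)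
    (h0 : 0 ≤ τ) (hτ : τ ≤ 1 / 2) (P : Finset ℕ) (q q' : ℕ) (hP : P ⊆ range r)
    (hPm : P.card < m) :
    0 ≤ ∑ x, μ P x * (f q x * f q' x) ∧
      ∑ x, μ P x * (f q x * f q' x) ≤ 4 * (2 : ℝ) ^ m := by
  constructor
  · exact Finset.sum_nonneg fun x _ => mul_nonneg (h.mu0 P x) (mul_nonneg (h.f0 q x) (h.f0 q' x))
  · have hmass : ∑ x, μ P x ≤ (2 : ℝ) ^ m := by
      refine le_trans (hma h h0 hτ P hP) ?_
      exact pow_le_pow_right₀ (by norm_num) hPm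
    calc ∑ x, μ P x * (f q x * f q' x) ≤ ∑ x, μ P x * 4 := by
          refine Finset.sum_le_sum fun x _ => mul_le_mul_of_nonneg_left ?_ (h.mu0 P x)
          have h1 := h.f0 q x
          have h2 := h.f2 q x
          have h3 := h.f0 q' x
          have h4 := h.f2 q' x
          nlinarith [mul_nonneg h1 h3, mul_nonneg h1 (sub_nonneg.mpr h4)]
      _ = 4 * ∑ x, μ P x := by rw [← Finset.sum_mul, mul_comm]
      _ ≤ 4 * (2 : ℝ) ^ m := by linarith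

theorem avg_abs {E : Type} [Fintype E] (μ : E → ℝ) (hμ : ∀ x, 0 ≤ μ x) (f₁ f₂ : ℕ → E → ℝ)
    (O : Finset ℕ) (hO : O.Nonempty) (τ : ℝ)
    (h : ∀ q ∈ O, ∑ x, μ x * |f₁ q x + f₂ q x - 1| ≤ τ) :
    ∑ x, μ x * |fb f₁ O x + fb f₂ O x - 1| ≤ τ := by
  have hc : (0 : ℝ) < (O.card : ℝ) := by exact_mod_cast Finset.card_pos.mpr hO
  have key : ∀ x, μ x * |fb f₁ O x + fb f₂ O x - 1|
      ≤ (∑ q ∈ O, μ x * |f₁ q x + f₂ q x - 1|) / (O.card : ℝ) := by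
    intro x
    have e1 : fb f₁ O x + fb f₂ O x - 1 = (∑ q ∈ O, (f₁ q x + f₂ q x - 1)) / (O.card : ℝ) := by
      unfold fb
      rw [Finset.sum_sub_distrib, Finset.sum_add_distrib, Finset.sum_const, nsmul_eq_mul]
      field_simp
    rw [e1, abs_div, abs_of_pos hc, ← Finset.mul_sum, mul_div_assoc]
    refine mul_le_mul_of_nonneg_left ?_ (hμ x)
    exact div_le_div_of_nonneg_right (Finset.abs_sum_le_sum_abs _ _) hc.le
  calc ∑ x, μ x * |fb f₁ O x + fb f₂ O x - 1|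
      ≤ ∑ x, (∑ q ∈ O, μ x * |f₁ q x + f₂ q x - 1|) / (O.card : ℝ) :=
        Finset.sum_le_sum fun x _ => key x
    _ = (∑ q ∈ O, ∑ x, μ x * |f₁ q x + f₂ q x - 1|) / (O.card : ℝ) := by
        rw [← Finset.sum_div, Finset.sum_comm]
    _ ≤ (∑ q ∈ O, τ) / (O.card : ℝ) :=
        div_le_div_of_nonneg_right (Finset.sum_le_sum h) hc.le
    _ = τ := by
        rw [Finset.sum_const, nsmul_eq_mul]
        field_simp

theorem fb_nonneg {E : Type} (f : ℕ → E → ℝ) (hf : ∀ q x, 0 ≤ f q x) (O : Finset ℕ) (x : E) :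
    0 ≤ fb f O x :=
  div_nonneg (Finset.sum_nonneg fun q _ => hf q x) (Nat.cast_nonneg _)

/-- the choice of the parameters -/
theorem params (m : ℕ) (hm : 1 ≤ m) : ∃ (κ δ τ : ℝ) (b : ℕ), 0 < κ ∧ 0 < τ ∧ τ ≤ 1 / 2 ∧ 1 ≤ b ∧
    Real.sqrt ((2 : ℝ) ^ m * (4 * κ + 8 * (2 : ℝ) ^ m / b)) ≤ δ ∧
    2 * (m * (2 * m * τ + m * 2 ^ m * δ)) < 2 * (1 / 2 : ℝ) ^ m * (1 - (m + 1) * τ) := by
  set A : ℝ := (2 : ℝ) ^ m with hA
  have hA0 : 0 < A := by positivity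
  set c : ℝ := (1 / 2 : ℝ) ^ m with hc
  have hc0 : 0 < c := by positivity
  have hc1 : c ≤ 1 := pow_le_one₀ (by norm_num) (by norm_num)
  have hm1 : (1 : ℝ) ≤ m := by exact_mod_cast hm
  set δ : ℝ := c / (4 * m ^ 2 * A) with hδ
  have hδ0 : 0 < δ := by positivity
  set κ : ℝ := δ ^ 2 / (8 * A) with hκ
  have hκ0 : 0 < κ := by positivity
  obtain ⟨b, hb⟩ := exists_nat_gt (16 * A ^ 2 / δ ^ 2)
  have hb0 : (0 : ℝ) < b := lt_of_le_of_lt (by positivity) hb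
  set τ : ℝ := c / (8 * (m + 1) ^ 2) with hτ
  have hτ0 : 0 < τ := by positivity
  have hτm : (m + 1) * τ ≤ 1 / 8 := by
    rw [hτ]
    have : (m + 1) * (c / (8 * (m + 1) ^ 2)) = c / (8 * ((m : ℝ) + 1)) := by
      field_simp
    rw [this, div_le_iff₀ (by positivity)]
    nlinarith
  refine ⟨κ, δ, τ, b, hκ0, hτ0, ?_, ?_, ?_, ?_⟩
  · nlinarith
  · exact_mod_cast (Nat.pos_of_ne_zero (by rintro rfl; simp at hb0))
  · rw [Real.sqrt_le_left hδ0.le]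
    have h1 : A * (4 * κ) = δ ^ 2 / 2 := by
      rw [hκ]
      field_simp
      ring
    have h2 : A * (8 * A / b) ≤ δ ^ 2 / 2 := by
      have h3 : 16 * A ^ 2 < b * δ ^ 2 := by
        rwa [div_lt_iff₀ (by positivity)] at hb
      rw [mul_div_assoc', div_le_iff₀ hb0]
      nlinarith
    calc A * (4 * κ + 8 * A / b) = A * (4 * κ) + A * (8 * A / b) := by ring
      _ ≤ δ ^ 2 := by linarith
  · have h1 : (m : ℝ) * (m * A * δ) = c / 4 := by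
      rw [hδ]
      field_simp
    have h2 : (m : ℝ) * (2 * m * τ) ≤ c / 4 := by
      rw [hτ]
      have h3 : (m : ℝ) * (2 * m * (c / (8 * (m + 1) ^ 2))) = (c / 4) * (m ^ 2 / (m + 1) ^ 2) := by
        field_simp
        ring
      rw [h3]
      have h4 : (m : ℝ) ^ 2 / (m + 1) ^ 2 ≤ 1 := by
        rw [div_le_one (by positivity)]
        nlinarith
      nlinarith
    have h5 : 2 * ((m : ℝ) * (2 * m * τ + m * A * δ)) ≤ c := by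
      have : (m : ℝ) * (2 * m * τ + m * A * δ) = m * (2 * m * τ) + m * (m * A * δ) := by ring
      rw [this, h1]
      linarith
    have h6 : c < 2 * c * (1 - (m + 1) * τ) := by nlinarith
    exact lt_of_le_of_lt h5 h6

theorem chain_of (m : ℕ) (hm : 1 ≤ m) (hhom : StHom)
    (hcl : ∀ (E : Type) [Fintype E], StClose E) (hma : ∀ (E : Type) [Fintype E], StMass E)
    (hst : ∀ (E : Type) [Fintype E], StStep E) (hst0 : ∀ (E : Type) [Fintype E], StStep0 E)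
    (hfin : ∀ (E : Type) [Fintype E], StFin E) : ∃ (r : ℕ) (τ : ℝ), 1 ≤ r ∧ 0 < τ ∧
    ∀ (E : Type) [Fintype E] (μ₁ μ₂ : Finset ℕ → E → ℝ) (f₁ f₂ : ℕ → E → ℝ),
      Sys m r τ μ₁ f₁ → Sys m r τ μ₂ f₂ → μ₁ ∅ = μ₂ ∅ → 1 - τ ≤ ∑ x, μ₁ ∅ x →
      (∀ q, q < r → ∑ x, μ₁ ∅ x * |f₁ q x + f₂ q x - 1| ≤ τ) → False := by
  obtain ⟨κ, δ, τ, b, hκ, hτ0, hτ, hb, hδ, hlt⟩ := params m hm
  obtain ⟨r, hr, hr2⟩ := hhom m (2 * m * b) κ (4 * (2 : ℝ) ^ m) hκ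
  refine ⟨r, τ, hr, hτ0, ?_⟩
  intro E _ μ₁ μ₂ f₁ f₂ h₁ h₂ heq hone hdiff
  obtain ⟨Q, hQr, hQc, hQ⟩ := hr2 (fun P q q' => ∑ x, μ₁ P x * (f₁ q x * f₁ q' x))
    (fun P q q' => ∑ x, μ₂ P x * (f₂ q x * f₂ q' x)) (fun P q q' hP hPm _ _ =>
      ⟨second_bounds (hma E) h₁ hτ0.le hτ P q q' hP hPm,
        second_bounds (hma E) h₂ hτ0.le hτ P q q' hP hPm⟩)
  have hom1 : Homog m κ μ₁ f₁ Q := fun P P' q q' u u' a1 a2 a3 a4 a5 a6 a7 a8 a9 a10 a11 a12 =>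
    (hQ P P' q q' u u' a1 a2 a3 a4 a5 a6 a7 a8 a9 a10 a11 a12).1
  have hom2 : Homog m κ μ₂ f₂ Q := fun P P' q q' u u' a1 a2 a3 a4 a5 a6 a7 a8 a9 a10 a11 a12 =>
    (hQ P P' q q' u u' a1 a2 a3 a4 a5 a6 a7 a8 a9 a10 a11 a12).2
  obtain ⟨C, hC, hCl⟩ := blocks Q (2 * m) b hQc
  have c1 := claim (hcl E) (hma E) (hst E) (hst0 E) h₁ hm hτ0.le hτ hQr hb hom1 hδ hC hCl
    (m - 1) 0 (by omega) ∅ (Finset.empty_subset _) Finset.card_empty (by simp)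
  have c2 := claim (hcl E) (hma E) (hst E) (hst0 E) h₂ hm hτ0.le hτ hQr hb hom2 hδ hC hCl
    (m - 1) 0 (by omega) ∅ (Finset.empty_subset _) Finset.card_empty (by simp)
  have hm' : m - 1 + 1 = m := by omega
  have hmr : ((m - 1 : ℕ) : ℝ) + 1 = m := by
    rw [Nat.cast_sub hm]
    simp
  rw [hm', hmr] at c1 c2
  have hC0 : (C (2 * 0)).Nonempty := by
    rw [← Finset.card_pos, (hC _ (by omega)).2]
    exact hb
  have hfi := hfin E m hm (μ₁ ∅) (h₁.mu0 ∅) (fb f₁ (C (2 * 0))) (fb f₂ (C (2 * 0)))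
    (fb_nonneg f₁ h₁.f0 _) (fb_nonneg f₂ h₂.f0 _) τ hone
    (avg_abs (μ₁ ∅) (h₁.mu0 ∅) f₁ f₂ _ hC0 τ (fun q hq => hdiff q
      (Finset.mem_range.mp (hQr ((hC _ (by omega)).1 hq)))))
  rw [← heq] at c2
  have hsum : ∑ x, μ₁ ∅ x * (fb f₁ (C (2 * 0)) x ^ m + fb f₂ (C (2 * 0)) x ^ m)
      = ∑ x, μ₁ ∅ x * fb f₁ (C (2 * 0)) x ^ m + ∑ x, μ₁ ∅ x * fb f₂ (C (2 * 0)) x ^ m := by
    rw [← Finset.sum_add_distrib]
    exact Finset.sum_congr rfl fun x _ => mul_add _ _ _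
  rw [hsum] at hfi
  linarith

end Chain17

end Pool.Agent.Helper34.FQ
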